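import Pool.Agent.Lib.MP_b07157_agYQ.Defs
import Pool.Agent.Lib.MP_b07157_agYM.NonExN

/-!
# The points of corank one
-/

noncomputable section

namespace MPb07157

open MvPolynomial

namespace YQ

open YM

private theorem constantCoeff_gchN {n : ℕ} (F : MvPolynomial (Fin (n + 1)) ℂ)
    {q : Fin (n + 1) → ℂ} {j₀ : Fin (n + 1)} (hq : q j₀ = 1) :
    constantCoeff (SI.gch F q j₀) = eval q F := by
  have h1 := eval_gchN F q j₀ 0
  have h2 : (j₀.insertNth (α := fun _ => ℂ) 1 fun i => (0 : Fin n → ℂ) i + q (j₀.succAbove i)) =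
      q := by
    funext i
    rcases Fin.eq_self_or_eq_succAbove j₀ i with rfl | ⟨m, rfl⟩
    · rw [Fin.insertNth_apply_same, hq]
    · rw [Fin.insertNth_apply_succAbove, Pi.zero_apply, zero_add]
  rw [h2] at h1
  rw [← h1, ← eval_zero]

/-- The Hessian matrix of the germ in the chart. -/
private theorem hess_gchN {n : ℕ} (F : MvPolynomial (Fin (n + 1)) ℂ)
    {q : Fin (n + 1) → ℂ} {j₀ : Fin (n + 1)} (hq : q j₀ = 1) :
    (Matrix.of fun i j : Fin n => MvPowerSeries.constantCoeff (MvPowerSeries.pderiv ℂ i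
      (MvPowerSeries.pderiv ℂ j (SI.gch F q j₀ : MvPowerSeries (Fin n) ℂ))) :
        Matrix (Fin n) (Fin n) ℂ) =
      Matrix.of fun i j : Fin n => YG.hessAt F q (j₀.succAbove i) (j₀.succAbove j) := by
  ext i j
  rw [Matrix.of_apply, Matrix.of_apply, MvPowerSeries.pderiv_coe, MvPowerSeries.pderiv_coe,
    YG.cc_coeG, pderiv_gchN, pderiv_gchN, constantCoeff_gchN _ hq]
  rfl

/-- The rank of the Hessian matrix in the chart. -/
private theorem rank_gchN {n : ℕ} {F : MvPolynomial (Fin (n + 1)) ℂ} {d : ℕ}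
    (hF : F.IsHomogeneous d) {q : Fin (n + 1) → ℂ} {j₀ : Fin (n + 1)} (hq : q j₀ = 1)
    (hs : ∀ j, eval q (pderiv j F) = 0) :
    (YG.hessAt F q).rank ≤
      (Matrix.of fun i j : Fin n => MvPowerSeries.constantCoeff (MvPowerSeries.pderiv ℂ i
        (MvPowerSeries.pderiv ℂ j (SI.gch F q j₀ : MvPowerSeries (Fin n) ℂ))) :
          Matrix (Fin n) (Fin n) ℂ).rank := by
  rw [hess_gchN F hq]
  refine YG.rank_le_block hq (fun i j => ?_) fun i => ?_
  · unfold YG.hessAt
    rw [Matrix.of_apply, Matrix.of_apply, YG.pd_commG]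
  · have h1 := (hF.pderiv (i := i)).sum_X_mul_pderiv
    have h2 := congrArg (eval q) h1
    rw [map_sum, map_nsmul, hs i, smul_zero] at h2
    rw [← h2]
    refine Finset.sum_congr rfl fun j _ => ?_
    unfold YG.hessAt
    rw [Matrix.of_apply, map_mul, eval_X, mul_comm, YG.pd_commG]

/-- The nodes and the points of corank one. -/
theorem locOK_of_corank {t : ℕ} {F : MvPolynomial (Fin (t + 3)) ℂ} {d : ℕ} (hd : 0 < d)
    (hF : F.IsHomogeneous d) (hfin : YG.FinSing F) {q : Fin (t + 3) → ℂ} {j₀ : Fin (t + 3)}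
    (hq : q j₀ = 1) (hs : ∀ j, eval q (pderiv j F) = 0)
    (h : ((t + 1) * d ≤ 2 * (t + 3) ∧ t + 1 ≤ (YG.hessAt F q).rank) ∨
      ((YG.hessAt F q).rank = t + 2 ∧ ∀ m : ℕ, 0 < m → 2 * (d * m + (t + 3)) ≠ (t + 2) * d)) :
    LocOK (SI.gch F q j₀ : MvPowerSeries (Fin (t + 2)) ℂ) d (t + 3) := by
  intro m hm α β e1 e2
  have hFq : eval q F = 0 := by
    have h1 := congrArg (eval q) hF.sum_X_mul_pderiv
    rw [map_sum, map_nsmul, Finset.sum_eq_zero (fun j _ => by
      rw [map_mul, hs j, mul_zero])] at h1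
    rw [nsmul_eq_mul] at h1
    exact (mul_eq_zero.1 h1.symm).resolve_left (by exact_mod_cast hd.ne')
  have h0 : MvPowerSeries.constantCoeff
      (SI.gch F q j₀ : MvPowerSeries (Fin (t + 2)) ℂ) = 0 := by
    rw [YG.cc_coeG, constantCoeff_gchN _ hq, hFq]
  have h1 : ∀ i, MvPowerSeries.constantCoeff (MvPowerSeries.pderiv ℂ i
      (SI.gch F q j₀ : MvPowerSeries (Fin (t + 2)) ℂ)) = 0 := by
    intro i
    rw [MvPowerSeries.pderiv_coe, YG.cc_coeG, pderiv_gchN, constantCoeff_gchN _ hq]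
    exact hs _
  have hrank := rank_gchN hF hq hs
  have hcard := Matrix.rank_le_card_width (Matrix.of fun i j : Fin (t + 2) =>
    MvPowerSeries.constantCoeff (MvPowerSeries.pderiv ℂ i (MvPowerSeries.pderiv ℂ j
      (SI.gch F q j₀ : MvPowerSeries (Fin (t + 2)) ℂ))) :
      Matrix (Fin (t + 2)) (Fin (t + 2)) ℂ)
  rw [Fintype.card_fin] at hcard
  have hiso := isoSing_gchN hF hfin q j₀
  refine mem_of_corank h0 h1 ((?_ : t + 1 ≤ (YG.hessAt F q).rank).trans hrank) hiso hd hm ?_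
    e1 e2
  · rcases h with h | h
    · exact h.2
    · rw [h.1]; exact Nat.le_succ _
  · rcases h with h | h
    · exact Or.inl h.1
    · exact Or.inr ⟨le_antisymm hcard (h.1.symm.le.trans hrank), h.2 _ hm⟩

end YQ

end MPb07157
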