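import Pool.Agent.Lib.MP_b07157_agYQ.Jac
import Pool.Agent.Lib.MP_b07157_agR.ARL
import Pool.Agent.Lib.MP_b07157_agI.IsoB

/-!
# The Euler field of a quasi-homogeneous germ
-/

noncomputable section

namespace MPb07157

open MvPolynomial

namespace YQ

variable {k : ℕ}

theorem pd_comm (i j : Fin k) (f : MvPowerSeries (Fin k) ℂ) :
    MvPowerSeries.pderiv ℂ i (MvPowerSeries.pderiv ℂ j f) =
    MvPowerSeries.pderiv ℂ j (MvPowerSeries.pderiv ℂ i f) := by
  by_cases h : i = j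
  · rw [h]
  · ext v
    rw [MvPowerSeries.coeff_pderiv, MvPowerSeries.coeff_pderiv, MvPowerSeries.coeff_pderiv,
      MvPowerSeries.coeff_pderiv, add_right_comm v (Finsupp.single i 1) (Finsupp.single j 1),
      Finsupp.add_apply, Finsupp.add_apply, Finsupp.single_eq_of_ne (Ne.symm h),
      Finsupp.single_eq_of_ne h]
    ring_nf

/-- The Jacobian matrix of an automorphism. -/
def JM (E : MvPowerSeries (Fin k) ℂ ≃ₐ[ℂ] MvPowerSeries (Fin k) ℂ) :
    Matrix (Fin k) (Fin k) (MvPowerSeries (Fin k) ℂ) :=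
  ARL.jm (fun a => MvPowerSeries.pderiv ℂ a) fun i => E (MvPowerSeries.X i)

theorem isUnit_det_JM (E : MvPowerSeries (Fin k) ℂ ≃ₐ[ℂ] MvPowerSeries (Fin k) ℂ) :
    IsUnit (JM E).det := by
  rw [MvPowerSeries.isUnit_iff_constantCoeff, isUnit_iff_ne_zero, RingHom.map_det,
    ← Matrix.det_transpose]
  have h1 : (MvPowerSeries.constantCoeff.mapMatrix (JM E)).transpose =
      Matrix.of fun i j => MvPowerSeries.coeff (Finsupp.single j 1)
        (E (MvPowerSeries.X i)) := by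
    ext i j
    rw [Matrix.transpose_apply, RingHom.mapMatrix_apply, Matrix.map_apply, Matrix.of_apply,
      coeff_single_ps]
    rfl
  rw [h1]
  exact jac_det_ne_zero E

/-- The transform of a vector field by an automorphism, and its divergence. -/
theorem exists_transform (E : MvPowerSeries (Fin k) ℂ ≃ₐ[ℂ] MvPowerSeries (Fin k) ℂ) :
    ∃ q : (MvPowerSeries (Fin k) ℂ)ˣ, ∀ ξ : Fin k → MvPowerSeries (Fin k) ℂ,
      ∃ χ : Fin k → MvPowerSeries (Fin k) ℂ,
        (∀ f, ∑ a, χ a * MvPowerSeries.pderiv ℂ a (E f) =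
          E (∑ i, ξ i * MvPowerSeries.pderiv ℂ i f)) ∧
        ∀ α, ∑ a, MvPowerSeries.pderiv ℂ a (E α * χ a) =
          E (∑ i, ξ i * MvPowerSeries.pderiv ℂ i α + (∑ i, MvPowerSeries.pderiv ℂ i (ξ i) +
            (q : MvPowerSeries (Fin k) ℂ) * ∑ i, ξ i * MvPowerSeries.pderiv ℂ i
              ((q⁻¹ : (MvPowerSeries (Fin k) ℂ)ˣ) : MvPowerSeries (Fin k) ℂ)) * α) := by
  obtain ⟨Ju, hJu⟩ := isUnit_det_JM E
  set q : (MvPowerSeries (Fin k) ℂ)ˣ := Units.map (E.symm : MvPowerSeries (Fin k) ℂ →*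
    MvPowerSeries (Fin k) ℂ) Ju with hq
  have hEq : E (q : MvPowerSeries (Fin k) ℂ) = (Ju : MvPowerSeries (Fin k) ℂ) := by
    rw [hq]
    exact E.apply_symm_apply _
  have hEq' : E ((q⁻¹ : (MvPowerSeries (Fin k) ℂ)ˣ) : MvPowerSeries (Fin k) ℂ) =
      ((Ju⁻¹ : (MvPowerSeries (Fin k) ℂ)ˣ) : MvPowerSeries (Fin k) ℂ) := by
    rw [hq, ← map_inv]
    exact E.apply_symm_apply _
  have hcr : ∀ (f : MvPowerSeries (Fin k) ℂ) (i : Fin k),
      ∑ a, (JM E).adjugate i a * MvPowerSeries.pderiv ℂ a (E f) =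
        (Ju : MvPowerSeries (Fin k) ℂ) * E (MvPowerSeries.pderiv ℂ i f) := by
    intro f i
    rw [hJu]
    refine ARL.sum_adjugate_mul (fun a => MvPowerSeries.pderiv ℂ a)
      (fun i => E (MvPowerSeries.X i)) (g := fun i => E (MvPowerSeries.pderiv ℂ i f)) ?_ i
    intro a
    rw [pderiv_equiv E a f]
    exact Finset.sum_congr rfl fun j _ => mul_comm _ _
  have hpi : ∀ i, ∑ a, MvPowerSeries.pderiv ℂ a ((JM E).adjugate i a) = 0 := fun i =>
    ARL.piola (D := fun a => MvPowerSeries.pderiv ℂ a) (fun a b h => pd_comm a b h)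
      (fun i => E (MvPowerSeries.X i)) i
  have hqq : (q : MvPowerSeries (Fin k) ℂ) *
      ((q⁻¹ : (MvPowerSeries (Fin k) ℂ)ˣ) : MvPowerSeries (Fin k) ℂ) = 1 := Units.mul_inv q
  have hJJ : ((Ju⁻¹ : (MvPowerSeries (Fin k) ℂ)ˣ) : MvPowerSeries (Fin k) ℂ) *
      (Ju : MvPowerSeries (Fin k) ℂ) = 1 := Units.inv_mul Ju
  refine ⟨q, fun ξ => ⟨fun a => ∑ i, E (ξ i *
    ((q⁻¹ : (MvPowerSeries (Fin k) ℂ)ˣ) : MvPowerSeries (Fin k) ℂ)) * (JM E).adjugate i a,
    fun f => ?_, fun α => ?_⟩⟩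
  · calc ∑ a, (∑ i, E (ξ i *
          ((q⁻¹ : (MvPowerSeries (Fin k) ℂ)ˣ) : MvPowerSeries (Fin k) ℂ)) *
            (JM E).adjugate i a) * MvPowerSeries.pderiv ℂ a (E f)
        = ∑ i, E (ξ i *
          ((q⁻¹ : (MvPowerSeries (Fin k) ℂ)ˣ) : MvPowerSeries (Fin k) ℂ)) *
            ∑ a, (JM E).adjugate i a * MvPowerSeries.pderiv ℂ a (E f) := by
          simp only [Finset.sum_mul, Finset.mul_sum]
          rw [Finset.sum_comm]
          exact Finset.sum_congr rfl fun i _ => Finset.sum_congr rfl fun a _ => by ring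
      _ = ∑ i, E (ξ i * MvPowerSeries.pderiv ℂ i f) := by
          refine Finset.sum_congr rfl fun i _ => ?_
          rw [hcr, map_mul, map_mul, hEq']
          linear_combination (E (ξ i) * E (MvPowerSeries.pderiv ℂ i f)) * hJJ
      _ = _ := (map_sum _ _ _).symm
  · calc ∑ a, MvPowerSeries.pderiv ℂ a (E α * ∑ i, E (ξ i *
          ((q⁻¹ : (MvPowerSeries (Fin k) ℂ)ˣ) : MvPowerSeries (Fin k) ℂ)) *
            (JM E).adjugate i a)
        = ∑ a, ∑ i, (E (α * ξ i *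
          ((q⁻¹ : (MvPowerSeries (Fin k) ℂ)ˣ) : MvPowerSeries (Fin k) ℂ)) *
            MvPowerSeries.pderiv ℂ a ((JM E).adjugate i a) +
            (JM E).adjugate i a * MvPowerSeries.pderiv ℂ a (E (α * ξ i *
          ((q⁻¹ : (MvPowerSeries (Fin k) ℂ)ˣ) : MvPowerSeries (Fin k) ℂ)))) := by
          refine Finset.sum_congr rfl fun a _ => ?_
          rw [Finset.mul_sum, map_sum]
          refine Finset.sum_congr rfl fun i _ => ?_
          rw [← mul_assoc, ← map_mul, ← mul_assoc, Derivation.leibniz, smul_eq_mul, smul_eq_mul]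
      _ = ∑ i, (E (α * ξ i *
          ((q⁻¹ : (MvPowerSeries (Fin k) ℂ)ˣ) : MvPowerSeries (Fin k) ℂ)) *
            ∑ a, MvPowerSeries.pderiv ℂ a ((JM E).adjugate i a) +
            ∑ a, (JM E).adjugate i a * MvPowerSeries.pderiv ℂ a (E (α * ξ i *
          ((q⁻¹ : (MvPowerSeries (Fin k) ℂ)ˣ) : MvPowerSeries (Fin k) ℂ)))) := by
          rw [Finset.sum_comm]
          refine Finset.sum_congr rfl fun i _ => ?_
          rw [Finset.sum_add_distrib, Finset.mul_sum]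
      _ = ∑ i, E ((q : MvPowerSeries (Fin k) ℂ) * MvPowerSeries.pderiv ℂ i (α * ξ i *
          ((q⁻¹ : (MvPowerSeries (Fin k) ℂ)ˣ) : MvPowerSeries (Fin k) ℂ))) := by
          refine Finset.sum_congr rfl fun i _ => ?_
          rw [hpi, hcr, mul_zero, zero_add, ← hEq, ← map_mul]
      _ = _ := by
          rw [← map_sum]
          congr 1
          rw [Finset.mul_sum, ← Finset.sum_add_distrib, Finset.sum_mul,
            ← Finset.sum_add_distrib]
          refine Finset.sum_congr rfl fun i _ => ?_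
          rw [Derivation.leibniz, Derivation.leibniz, smul_eq_mul, smul_eq_mul, smul_eq_mul,
            smul_eq_mul]
          linear_combination (α * MvPowerSeries.pderiv ℂ i (ξ i) +
            ξ i * MvPowerSeries.pderiv ℂ i α) * hqq

theorem eul_mul (w : Fin k → ℕ) (D : ℕ) (a b : MvPowerSeries (Fin k) ℂ) :
    eul w D (a * b) = a * eul w D b + eul w D a * b := by
  unfold eul
  rw [Finset.mul_sum, Finset.sum_mul, ← Finset.sum_add_distrib]
  refine Finset.sum_congr rfl fun i _ => ?_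
  rw [Derivation.leibniz, smul_eq_mul, smul_eq_mul]
  ring

theorem constantCoeff_eul (w : Fin k → ℕ) (D : ℕ) (a : MvPowerSeries (Fin k) ℂ) :
    MvPowerSeries.constantCoeff (eul w D a) = 0 := by
  unfold eul
  rw [map_sum]
  refine Finset.sum_eq_zero fun i _ => ?_
  rw [map_mul, map_mul, MvPowerSeries.constantCoeff_X, zero_mul, mul_zero]

theorem eul_coe {w : Fin k → ℕ} {D : ℕ} (hD : 0 < D) {G : MvPolynomial (Fin k) ℂ}
    (hG : G.IsWeightedHomogeneous w D) :
    eul w D (G : MvPowerSeries (Fin k) ℂ) = (G : MvPowerSeries (Fin k) ℂ) := by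
  have h1 := hG.sum_weight_X_mul_pderiv
  have h2 : (D : MvPowerSeries (Fin k) ℂ) * eul w D (G : MvPowerSeries (Fin k) ℂ) =
      (D : MvPowerSeries (Fin k) ℂ) * (G : MvPowerSeries (Fin k) ℂ) := by
    have h3 := congrArg (fun p : MvPolynomial (Fin k) ℂ => (p : MvPowerSeries (Fin k) ℂ)) h1
    simp only [nsmul_eq_mul] at h3
    have h5 : ∀ p : MvPolynomial (Fin k) ℂ, (p : MvPowerSeries (Fin k) ℂ) =
      MvPolynomial.coeToMvPowerSeries.ringHom p := fun p => rfl
    have h8 : (((D : MvPolynomial (Fin k) ℂ) * G : MvPolynomial (Fin k) ℂ) :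
        MvPowerSeries (Fin k) ℂ) =
        (D : MvPowerSeries (Fin k) ℂ) * (G : MvPowerSeries (Fin k) ℂ) := by
      rw [h5, map_mul, map_natCast, ← h5]
    rw [← h8, ← h3]
    unfold eul
    have h4 : ((∑ i, (w i : MvPolynomial (Fin k) ℂ) * (X i * pderiv i G) :
        MvPolynomial (Fin k) ℂ) : MvPowerSeries (Fin k) ℂ) =
        ∑ i, (w i : MvPowerSeries (Fin k) ℂ) * (MvPowerSeries.X i *
          MvPowerSeries.pderiv ℂ i (G : MvPowerSeries (Fin k) ℂ)) := by
      rw [h5, map_sum]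
      refine Finset.sum_congr rfl fun i _ => ?_
      rw [map_mul, map_mul, map_natCast, MvPowerSeries.pderiv_coe]
      rw [← h5, ← h5, MvPolynomial.coe_X]
    rw [h4, Finset.mul_sum]
    refine Finset.sum_congr rfl fun i _ => ?_
    rw [← mul_assoc]
    congr 1
    have h6 : (D : MvPowerSeries (Fin k) ℂ) = MvPowerSeries.C (D : ℂ) := by
      rw [map_natCast]
    rw [h6, ← map_mul, mul_div_cancel₀ _ (Nat.cast_ne_zero.2 hD.ne'), map_natCast]
  have h7 : IsUnit (D : MvPowerSeries (Fin k) ℂ) := by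
    rw [MvPowerSeries.isUnit_iff_constantCoeff, map_natCast, isUnit_iff_ne_zero]
    exact Nat.cast_ne_zero.2 hD.ne'
  exact h7.mul_left_cancel h2

/-- Let `g = u E(G) = E(u' G)`. For `v = (1 + eul(u')/u')^{-1}`, the field `X = v eul` has
`X(u' G) = u' G`, as `eul(G) = G`. The transform `X' = E X E^{-1} = ∑ χ_i ∂_i` has `X'(g) = g` and
`div X' = E(div X) - X'(J)/J`, `J` the Jacobian determinant of the `E(X_i)`; so
`∑ ∂_i (E(α) χ_i) = X'(E α) + (div X') E(α) = E(v eul(α) + θ α)`,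
`θ = div X - X(E^{-1} J)/E^{-1} J`, `θ(0) = ∑ w_i/D`. (Compare `agYM/LcB.lean`.) -/
theorem QHAt.exists_field {k : ℕ} {g : MvPowerSeries (Fin k) ℂ} {w : Fin k → ℕ} {D : ℕ}
    {G : MvPolynomial (Fin k) ℂ} (hg : QHAt g w D G) :
    ∃ (E : MvPowerSeries (Fin k) ℂ ≃ₐ[ℂ] MvPowerSeries (Fin k) ℂ)
      (χ : Fin k → MvPowerSeries (Fin k) ℂ) (v θ : MvPowerSeries (Fin k) ℂ),
      MvPowerSeries.constantCoeff v = 1 ∧
      MvPowerSeries.constantCoeff θ = (∑ i, (w i : ℂ)) / D ∧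
      ∑ i, χ i * MvPowerSeries.pderiv ℂ i g = g ∧
      (∀ α, ∑ i, MvPowerSeries.pderiv ℂ i (E α * χ i) = E (v * eul w D α + θ * α)) ∧
      YM.JI g = (YM.JI (G : MvPowerSeries (Fin k) ℂ)).map
        (E : MvPowerSeries (Fin k) ℂ →+* MvPowerSeries (Fin k) ℂ) := by
  obtain ⟨E, u, hgu⟩ := hg.eq
  set u' : (MvPowerSeries (Fin k) ℂ)ˣ := Units.map (E.symm : MvPowerSeries (Fin k) ℂ →*
    MvPowerSeries (Fin k) ℂ) u with hu'
  have hEu : E (u' : MvPowerSeries (Fin k) ℂ) = (u : MvPowerSeries (Fin k) ℂ) := by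
    rw [hu']
    exact E.apply_symm_apply _
  have hgE : g = E ((u' : MvPowerSeries (Fin k) ℂ) * (G : MvPowerSeries (Fin k) ℂ)) := by
    rw [map_mul, hEu, hgu]
  have hcu : MvPowerSeries.constantCoeff (u' : MvPowerSeries (Fin k) ℂ) ≠ 0 :=
    isUnit_iff_ne_zero.1 (MvPowerSeries.isUnit_iff_constantCoeff.1 u'.isUnit)
  have hvu : IsUnit ((u' : MvPowerSeries (Fin k) ℂ) + eul w D (u' : MvPowerSeries (Fin k) ℂ)) := by
    rw [MvPowerSeries.isUnit_iff_constantCoeff, map_add, constantCoeff_eul, add_zero,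
      isUnit_iff_ne_zero]
    exact hcu
  obtain ⟨s, hs⟩ := hvu
  have hss : ((s⁻¹ : (MvPowerSeries (Fin k) ℂ)ˣ) : MvPowerSeries (Fin k) ℂ) *
      (s : MvPowerSeries (Fin k) ℂ) = 1 := Units.inv_mul s
  set v : MvPowerSeries (Fin k) ℂ := (u' : MvPowerSeries (Fin k) ℂ) *
    ((s⁻¹ : (MvPowerSeries (Fin k) ℂ)ˣ) : MvPowerSeries (Fin k) ℂ) with hv
  have hcs : MvPowerSeries.constantCoeff (s : MvPowerSeries (Fin k) ℂ) =
      MvPowerSeries.constantCoeff (u' : MvPowerSeries (Fin k) ℂ) := by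
    rw [hs, map_add, constantCoeff_eul, add_zero]
  have hcv : MvPowerSeries.constantCoeff v = 1 := by
    have h1 := congrArg MvPowerSeries.constantCoeff hss
    rw [map_mul, map_one, hcs] at h1
    rw [hv, map_mul, mul_comm]
    exact h1
  clear_value v
  obtain ⟨q, hq⟩ := exists_transform E
  obtain ⟨χ, hχ1, hχ2⟩ := hq fun i => v * (MvPowerSeries.C ((w i : ℂ) / D) * MvPowerSeries.X i)
  have hξ : ∀ α : MvPowerSeries (Fin k) ℂ,
      ∑ i, v * (MvPowerSeries.C ((w i : ℂ) / D) * MvPowerSeries.X i) *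
        MvPowerSeries.pderiv ℂ i α = v * eul w D α := by
    intro α
    unfold eul
    rw [Finset.mul_sum]
    exact Finset.sum_congr rfl fun i _ => by ring
  refine ⟨E, χ, v, ∑ i, MvPowerSeries.pderiv ℂ i (v * (MvPowerSeries.C ((w i : ℂ) / D) *
      MvPowerSeries.X i)) + (q : MvPowerSeries (Fin k) ℂ) *
      ∑ i, v * (MvPowerSeries.C ((w i : ℂ) / D) * MvPowerSeries.X i) * MvPowerSeries.pderiv ℂ i
        ((q⁻¹ : (MvPowerSeries (Fin k) ℂ)ˣ) : MvPowerSeries (Fin k) ℂ), hcv, ?_, ?_, ?_, ?_⟩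
  · rw [map_add, map_mul, hξ, map_mul, constantCoeff_eul, mul_zero, mul_zero, add_zero, map_sum,
      Finset.sum_div]
    refine Finset.sum_congr rfl fun i _ => ?_
    rw [Derivation.leibniz, Derivation.leibniz, MvPowerSeries.pderiv_C, smul_zero, add_zero,
      MvPowerSeries.pderiv_X_self, smul_eq_mul, smul_eq_mul, smul_eq_mul, mul_one, map_add,
      map_mul, map_mul, map_mul, MvPowerSeries.constantCoeff_X, mul_zero, zero_mul, add_zero,
      hcv, one_mul, MvPowerSeries.constantCoeff_C]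
  · rw [hgE, hχ1, hξ, eul_mul, eul_coe hg.hD hg.hG]
    congr 1
    rw [← add_mul, ← hs, hv]
    linear_combination ((u' : MvPowerSeries (Fin k) ℂ) * (G : MvPowerSeries (Fin k) ℂ)) * hss
  · intro α
    rw [hχ2, hξ]
  · rw [hgE, ji_equiv, ji_unit_mul hg.hD hg.hG]

end YQ

end MPb07157
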