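import Pool.Agent.Lib.MP_b07157_agYQ.Filt
import Pool.Agent.Lib.MP_b07157_agYQ.Eul
import Pool.Agent.Lib.MP_b07157_agYM.LcC

/-!
# The local statement at a quasi-homogeneous point
-/

noncomputable section

namespace MPb07157

open MvPolynomial

namespace YQ

/-- **The local statement.** As `YM.mem_of_corank` (`agYM/LcC.lean`), with `QHAt.exists_field`,
`QHAt.jac_powers` and `mem_of_shift` (for `E^{-1}(α)`). -/
theorem QHAt.locOK {k : ℕ} {g : MvPowerSeries (Fin k) ℂ} {w : Fin k → ℕ} {D : ℕ}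
    {G : MvPolynomial (Fin k) ℂ} (hg : QHAt g w D G) {d n : ℕ} (hd : 0 < d)
    (hnum : NumOK G w D n d) : LocOK g d n := by
  classical
  intro m hm α β e1 e2
  obtain ⟨E, χ, v, θ, hv, hθ, hχ, hE, hJ⟩ := hg.exists_field
  obtain ⟨N, hN⟩ := hg.jac_powers
  refine ⟨?_, N, hN⟩
  have hsum : ∑ i, (β i + (d : MvPowerSeries (Fin k) ℂ) * (α * χ i)) *
      MvPowerSeries.pderiv ℂ i g = 0 := by
    have h3 : ∑ i, (β i + (d : MvPowerSeries (Fin k) ℂ) * (α * χ i)) *
        MvPowerSeries.pderiv ℂ i g = ∑ i, β i * MvPowerSeries.pderiv ℂ i g +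
          (d : MvPowerSeries (Fin k) ℂ) * α * ∑ i, χ i * MvPowerSeries.pderiv ℂ i g := by
      rw [Finset.mul_sum, ← Finset.sum_add_distrib]
      exact Finset.sum_congr rfl fun i _ => by ring
    rw [h3, hχ]
    linear_combination e1
  have hdiv := YM.LcCaux.div_mem (YM.koszul_of_powers_ps (N := N)
    (y := fun j => MvPowerSeries.pderiv ℂ j g) hN hsum)
  have hdiv2 : ∑ i, MvPowerSeries.pderiv ℂ i (β i +
      (d : MvPowerSeries (Fin k) ℂ) * (α * χ i)) =
      ∑ i, MvPowerSeries.pderiv ℂ i (β i) + (d : MvPowerSeries (Fin k) ℂ) *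
        ∑ i, MvPowerSeries.pderiv ℂ i (α * χ i) := by
    rw [Finset.mul_sum, ← Finset.sum_add_distrib]
    refine Finset.sum_congr rfl fun i _ => ?_
    rw [map_add, Derivation.leibniz, Derivation.map_natCast, smul_zero, add_zero, smul_eq_mul]
  rw [hdiv2] at hdiv
  have hgJ : g ∈ YM.JI g := by
    have h3 : ∑ i, χ i * MvPowerSeries.pderiv ℂ i g ∈ YM.JI g :=
      Ideal.sum_mem _ fun i _ => Ideal.mul_mem_left _ _ (Ideal.subset_span ⟨i, rfl⟩)
    rwa [hχ] at h3
  have hgm : g ^ m ∈ YM.JI g := by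
    obtain ⟨l, rfl⟩ := Nat.exists_eq_succ_of_ne_zero hm.ne'
    rw [pow_succ]
    exact Ideal.mul_mem_left _ _ hgJ
  have hα : α = E (E.symm α) := (AlgEquiv.apply_symm_apply E α).symm
  have key : (E : MvPowerSeries (Fin k) ℂ →+* MvPowerSeries (Fin k) ℂ)
      (MvPowerSeries.C ((d * m + n : ℕ) : ℂ) * E.symm α -
        MvPowerSeries.C (d : ℂ) * (v * eul w D (E.symm α) + θ * E.symm α)) ∈
      (YM.JI (G : MvPowerSeries (Fin k) ℂ)).map
        (E : MvPowerSeries (Fin k) ℂ →+* MvPowerSeries (Fin k) ℂ) := by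
    rw [← hJ]
    have h4 : (E : MvPowerSeries (Fin k) ℂ →+* MvPowerSeries (Fin k) ℂ)
        (MvPowerSeries.C ((d * m + n : ℕ) : ℂ) * E.symm α -
          MvPowerSeries.C (d : ℂ) * (v * eul w D (E.symm α) + θ * E.symm α)) =
        ((d * m + n : ℕ) : MvPowerSeries (Fin k) ℂ) * α -
          (d : MvPowerSeries (Fin k) ℂ) * ∑ i, MvPowerSeries.pderiv ℂ i (α * χ i) := by
      rw [← YM.LcCaux.natCast_eq, ← YM.LcCaux.natCast_eq]
      have h5 : ∑ i, MvPowerSeries.pderiv ℂ i (α * χ i) =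
          E (v * eul w D (E.symm α) + θ * E.symm α) := by
        rw [← hE (E.symm α), ← hα]
      rw [h5, map_sub, map_mul, map_mul, map_natCast, map_natCast]
      show ((d * m + n : ℕ) : MvPowerSeries (Fin k) ℂ) * E (E.symm α) -
        (d : MvPowerSeries (Fin k) ℂ) * E (v * eul w D (E.symm α) + θ * E.symm α) = _
      rw [← hα]
    rw [h4]
    have h3 : ((d * m + n : ℕ) : MvPowerSeries (Fin k) ℂ) * α -
        (d : MvPowerSeries (Fin k) ℂ) * ∑ i, MvPowerSeries.pderiv ℂ i (α * χ i) =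
        g ^ m - (∑ i, MvPowerSeries.pderiv ℂ i (β i) + (d : MvPowerSeries (Fin k) ℂ) *
          ∑ i, MvPowerSeries.pderiv ℂ i (α * χ i)) := by
      linear_combination e2
    rw [h3]
    exact Ideal.sub_mem _ hgm hdiv
  have hbij : Function.Bijective
      (E : MvPowerSeries (Fin k) ℂ →+* MvPowerSeries (Fin k) ℂ) := E.bijective
  have key2 : MvPowerSeries.C ((d * m + n : ℕ) : ℂ) * E.symm α -
      MvPowerSeries.C (d : ℂ) * (v * eul w D (E.symm α) + θ * E.symm α) ∈
      YM.JI (G : MvPowerSeries (Fin k) ℂ) := by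
    have h6 := Ideal.mem_comap.2 key
    rwa [Ideal.comap_map_of_bijective _ hbij] at h6
  have hmem := mem_of_shift hg.hw hg.hD hg.hG hg.iso hv hθ (c := ((d * m + n : ℕ) : ℂ))
    (d := (d : ℂ)) (fun a ha hc => hnum m a hm ha (by exact_mod_cast hc)) key2
  rw [hα, hJ]
  exact Ideal.mem_map_of_mem (E : MvPowerSeries (Fin k) ℂ →+* MvPowerSeries (Fin k) ℂ) hmem

end YQ

end MPb07157
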