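import Pool.Agent.Lib.MP_b07157_agYQ.Core
import Pool.Agent.Lib.MP_b07157_agYQ.LocC
import Pool.Agent.Lib.MP_b07157_agYQ.MemQ

/-!
# The power F^(-n/d) is not a sum of derivatives: points of corank one, quasi-homogeneous points
-/

noncomputable section

namespace MPb07157

open MvPolynomial

namespace YQ

private theorem eval_smul_hom {n : ℕ} {S : MvPolynomial (Fin n) ℂ} {l : ℕ}
    (hS : S.IsHomogeneous l) (c : ℂ) (q : Fin n → ℂ) : eval (c • q) S = c ^ l * eval q S := by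
  rw [eval_eq', eval_eq', Finset.mul_sum]
  refine Finset.sum_congr rfl fun v hv => ?_
  have h1 : ∑ i, v i = l := by
    have := hS (mem_support_iff.1 hv)
    rw [← this]
    simp [Finsupp.weight_apply, Finsupp.sum_fintype]
  simp only [Pi.smul_apply, smul_eq_mul, mul_pow, Finset.prod_mul_distrib]
  rw [Finset.prod_pow_eq_pow_sum, h1]
  ring

/-- **The power `F^(-n/d)`**, `n = t + 3`, of a form `F` such that the projective hypersurface
`F = 0` has finitely many singular points, each of which is a node (and `(n - 1)/2 ≠ n/d + m` for all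
`m ≥ 1`), or of corank one (if `(n - 2) d ≤ 2 n`), or quasi-homogeneous without spectral numbers
`n/d + m`, `m ≥ 1`, is not a sum of derivatives, if each linear vector field which kills `F` has
divergence zero. -/
theorem nonEx_of_qh {t : ℕ} {F : MvPolynomial (Fin (t + 3)) ℂ} {d : ℕ} (hd : 2 ≤ d)
    (hF : F.IsHomogeneous d) (hF0 : F ≠ 0) (hfin : YG.FinSing F)
    (hpt : ∀ q : Fin (t + 3) → ℂ, q ≠ 0 → (∀ j, eval q (pderiv j F) = 0) →
      (((t + 1) * d ≤ 2 * (t + 3) ∧ t + 1 ≤ (YG.hessAt F q).rank) ∨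
      ((YG.hessAt F q).rank = t + 2 ∧ ∀ m : ℕ, 0 < m → 2 * (d * m + (t + 3)) ≠ (t + 2) * d)) ∨
      QPt F d q)
    (hNS : NS F) : NonEx F (((t : ℂ) + 3) / (d : ℂ)) := by
  have hd0 : 0 < d := by omega
  have h := nonEx_of_pts (k := t + 2) hd hF hF0 hfin (fun p hp hs => ?_) hNS
  · have e : (((t + 2 : ℕ) : ℂ) + 1) = (t : ℂ) + 3 := by push_cast; ring
    rwa [e] at h
  obtain ⟨j₀, hj⟩ := Function.ne_iff.1 hp
  rw [Pi.zero_apply] at hj
  have hq : ((p j₀)⁻¹ • p) j₀ = 1 := by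
    rw [Pi.smul_apply, smul_eq_mul, inv_mul_cancel₀ hj]
  have hq0 : (p j₀)⁻¹ • p ≠ 0 := by
    intro h
    rw [h] at hq
    exact zero_ne_one hq
  have hs' : ∀ j, eval ((p j₀)⁻¹ • p) (pderiv j F) = 0 := by
    intro j
    rw [eval_smul_hom (hF.pderiv (i := j)), hs j, mul_zero]
  rcases hpt _ hq0 hs' with h | ⟨j₁, c, hc, w, D, G, hG, hnum⟩
  · exact ⟨j₀, (p j₀)⁻¹, inv_mul_cancel₀ hj, locOK_of_corank hd0 hF hfin hq hs' h⟩
  · refine ⟨j₁, c * (p j₀)⁻¹, ?_, ?_⟩
    · rw [← hc, Pi.smul_apply, smul_eq_mul, mul_assoc]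
    · rw [← smul_smul]
      exact hG.locOK hd0 hnum

end YQ

end MPb07157
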