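import Pool.Agent.Lib.MP_b07157_agYQ.NonExQ
import Pool.Agent.Lib.MP_b07157_agYX.Main2
import Pool.Agent.Lib.MP_b07157_agYN.NSD
import Pool.Agent.Lib.MP_b07157_agYH.A6
import Pool.Agent.Lib.MP_b07157_agYH.A7

/-!
# Surface germs with reduced tangent cones: conditions at -3/d
-/

noncomputable section

namespace MPb07157

open MvPolynomial

namespace YQ

theorem eq_zero_of_rank {n : ℕ} {A : Matrix (Fin n) (Fin n) ℂ} (h : A.rank = 0) (i j : Fin n) :
    A i j = 0 := by
  classical
  unfold Matrix.rank at h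
  rw [Submodule.finrank_eq_zero, LinearMap.range_eq_bot] at h
  have h1 := congrFun (congrArg DFunLike.coe h) (Pi.single j 1)
  have h2 := congrFun h1 i
  simpa using h2

/-- Conditions for a form `F` of degree `d` in three variables: `d = 3`; or all points of the curve
`F = 0` have multiplicity at most `d / 3`; or `d ≥ 5` or each linear vector field which kills `F` has
divergence zero, and each singular point of the curve is a double point and `d ≤ 6`, or is
quasi-homogeneous without spectral number `3/d + m`, `m ≥ 1`; or `F^(-3/d)` is not a sum of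
derivatives. -/
def C3 (F : MvPolynomial (Fin 3) ℂ) (d : ℕ) : Prop :=
  d = 3 ∨
  (∀ p : Fin 3 → ℂ, p ≠ 0 → ∃ m : ℕ, m * 3 ≤ d ∧ YH.MultLe F p m) ∨
  ((NS F ∨ 5 ≤ d ∧ YN.DoubleCurve F) ∧ ∀ q : Fin 3 → ℂ, q ≠ 0 →
    (∀ j, eval q (pderiv j F) = 0) →
    (d ≤ 6 ∧ ∃ i j, eval q (pderiv i (pderiv j F)) ≠ 0) ∨ QPt F d q) ∨
  NonEx F (3 / (d : ℂ))

end YQ

/-- **Surface germs with reduced tangent cones, double points**: `f = f_d + f_{d+e} + ⋯`, `f_d` is
squarefree, and each singular point `q` of the curve `f_d = 0` satisfies `f_{d+e}(q) ≠ 0`, or is a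
node, or `d ≤ 6`, `f` is an isolated singularity and `q` is a double point; with the condition `C3`
at `-3/d`. -/
theorem SmcLoc.of_tc3 {f : MvPolynomial (Fin 3) ℂ} {d e : ℕ} (hd : 2 ≤ d) (he : 0 < e)
    (hf : YX.IsTC2 f d e) (hc : YQ.C3 (homogeneousComponent d f) d) : SmcLoc f := by
  have hF := homogeneousComponent_isHomogeneous d f
  refine SmcLoc.of_tc2 (by omega) he hf ?_
  rcases hc with h | h | ⟨hNS, h⟩ | h
  · exact Or.inl h
  · refine Or.inr (Or.inl ?_)
    have h5 := YH.hasLct_of_mult (n := 3) (by omega) (by omega) hf.low h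
    push_cast at h5
    exact h5
  · refine Or.inr (Or.inr ?_)
    have hNS' : NS (homogeneousComponent d f) := hNS.elim id fun h =>
      YN.ns_of_double h.1 hF hf.sqf.ne_zero h.2
    have h6 := YQ.nonEx_of_qh (t := 0) (d := d) (by omega) hF hf.sqf.ne_zero
      (SI.finite_lines (by omega) hF hf.sqf) (fun q hq hs => ?_) hNS'
    · simpa using h6
    rcases h q hq hs with ⟨h1, i, j, hij⟩ | h1
    · refine Or.inl (Or.inl ⟨by omega, ?_⟩)
      by_contra hcon
      have h2 : (YG.hessAt (homogeneousComponent d f) q).rank = 0 := by omega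
      exact hij (YQ.eq_zero_of_rank h2 i j)
    · exact Or.inr h1
  · exact Or.inr (Or.inr h)

end MPb07157
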