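import Pool.Agent.Lib.MP_b07157_agYQ.Defs
import Pool.Agent.Lib.MP_b07157_agYM.NonExN

/-!
# The power F^(-n/d) is not a sum of derivatives, local form
-/

noncomputable section

namespace MPb07157

open MvPolynomial

namespace YQ

private theorem eval_smul_hom {n : ℕ} {S : MvPolynomial (Fin n) ℂ} {l : ℕ}
    (hS : S.IsHomogeneous l) (c : ℂ) (q : Fin n → ℂ) : eval (c • q) S = c ^ l * eval q S := by
  rw [eval_eq', eval_eq', Finset.mul_sum]
  refine Finset.sum_congr rfl fun v hv => ?_
  have h1 : ∑ i, v i = l := by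
    have := hS (mem_support_iff.1 hv)
    rw [← this]
    simp [Finsupp.weight_apply, Finsupp.sum_fintype]
  simp only [Pi.smul_apply, smul_eq_mul, mul_pow, Finset.prod_mul_distrib]
  rw [Finset.prod_pow_eq_pow_sum, h1]
  ring

/-- **The power `F^(-n/d)`** of a form in `n = k + 1` variables such that the projective hypersurface
`F = 0` has finitely many singular points, all with the property `LocOK`, is not a sum of
derivatives, if each linear vector field which kills `F` has divergence zero. -/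
theorem nonEx_of_pts {k : ℕ} {F : MvPolynomial (Fin (k + 1)) ℂ} {d : ℕ} (hd : 2 ≤ d)
    (hF : F.IsHomogeneous d) (hF0 : F ≠ 0) (hfin : YG.FinSing F)
    (hpt : ∀ q : Fin (k + 1) → ℂ, q ≠ 0 → (∀ j, eval q (pderiv j F) = 0) →
      ∃ (j₀ : Fin (k + 1)) (c : ℂ), c * q j₀ = 1 ∧
        LocOK (SI.gch F (c • q) j₀ : MvPowerSeries (Fin k) ℂ) d (k + 1))
    (hNS : NS F) : NonEx F (((k : ℂ) + 1) / (d : ℂ)) := by
  by_contra hne
  have hd0 : 0 < d := by omega
  have hcast : ((k + 1 : ℕ) : ℂ) = (k : ℂ) + 1 := by push_cast; ring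
  rw [← hcast] at hne
  obtain ⟨m, hm⟩ := YM.bad_of_not_nonEx (Nat.succ_pos k) hd0 hF hF0 hne
  induction m with
  | zero =>
    obtain ⟨v, hv, hvF, hdiv⟩ := hm.homog hF
    have h1 := hNS v (fun i => by simpa using hv i) hvF
    rw [h1, pow_zero] at hdiv
    exact zero_ne_one hdiv
  | succ m ih =>
    obtain ⟨v, hv, hvF, hdiv⟩ := hm.homog hF
    have hp0 : ∀ i, eval 0 (pderiv i F) = 0 := by
      intro i
      have h1 := eval_smul_hom (hF.pderiv (i := i)) 0 0
      rw [zero_smul, zero_pow (by omega), zero_mul] at h1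
      exact h1
    refine ih (YM.Bad.pred (Nat.succ_pos k) hd0 hF
      (YM.isKos_of_local hfin hp0 hvF fun p hp hs => ?_) hdiv)
    obtain ⟨j₀, c, hc1, hloc⟩ := hpt p hp hs
    have hc0 : c ≠ 0 := by
      rintro rfl
      rw [zero_mul] at hc1
      exact zero_ne_one hc1
    set q : Fin (k + 1) → ℂ := c • p with hqdef
    have hpq : p = c⁻¹ • q := by
      rw [hqdef, smul_smul, inv_mul_cancel₀ hc0, one_smul]
    have hq : q j₀ = 1 := by
      rw [hqdef, Pi.smul_apply, smul_eq_mul, hc1]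
    obtain ⟨e1, e2⟩ := YM.chart_eqs hF hv hvF hdiv q j₀
    have e1' := congrArg
      (MvPolynomial.coeToMvPowerSeries.ringHom (R := ℂ) (σ := Fin k)) e1
    have e2' := congrArg
      (MvPolynomial.coeToMvPowerSeries.ringHom (R := ℂ) (σ := Fin k)) e2
    rw [map_add, map_mul, map_mul, map_natCast, map_sum, map_zero] at e1'
    rw [map_add, map_mul, map_natCast, map_sum, map_pow] at e2'
    simp only [map_mul, MvPolynomial.coeToMvPowerSeries.ringHom_apply,
      ← MvPowerSeries.pderiv_coe] at e1' e2'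
    obtain ⟨hc, hN⟩ := hloc (m + 1) (Nat.succ_pos m) _ _ e1' e2'
    obtain ⟨S, l, hS, hSq, hk⟩ := YM.local_kos hd0 hF hv hvF hq hN hc
    refine ⟨S, ?_, hk⟩
    rw [hpq, eval_smul_hom hS]
    exact mul_ne_zero (pow_ne_zero _ (inv_ne_zero hc0)) hSq

end YQ

end MPb07157
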