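import Pool.Agent.Lib.MP_b07157_agYM.Defs

/-!
# Quasi-homogeneous singular points of a form: definitions
-/

noncomputable section

namespace MPb07157

open MvPolynomial

namespace YQ

variable {k : ℕ}

/-- The Euler field. -/
def eul (w : Fin k → ℕ) (D : ℕ) (α : MvPowerSeries (Fin k) ℂ) : MvPowerSeries (Fin k) ℂ :=
  ∑ i, MvPowerSeries.C ((w i : ℂ) / D) * (MvPowerSeries.X i * MvPowerSeries.pderiv ℂ i α)

/-- The local property of the germ `g` of the section of a form of degree `d` in `n` variables. -/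
def LocOK (g : MvPowerSeries (Fin k) ℂ) (d n : ℕ) : Prop :=
  ∀ m : ℕ, 0 < m → ∀ (α : MvPowerSeries (Fin k) ℂ) (β : Fin k → MvPowerSeries (Fin k) ℂ),
    (d : MvPowerSeries (Fin k) ℂ) * α * g + ∑ i, β i * MvPowerSeries.pderiv ℂ i g = 0 →
    ((d * m + n : ℕ) : MvPowerSeries (Fin k) ℂ) * α +
      ∑ i, MvPowerSeries.pderiv ℂ i (β i) = g ^ m →
    α ∈ YM.JI g ∧ ∃ N : ℕ, ∀ i, (MvPowerSeries.X i : MvPowerSeries (Fin k) ℂ) ^ N ∈ YM.JI g

end YQ

end MPb07157
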