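import Pool.Agent.Lib.MP_b07157_agYQ.Defs

/-!
# The shifted Euler field and the Jacobian ideal
-/

noncomputable section

namespace MPb07157

open MvPolynomial

namespace YQ

namespace FiltAux

variable {k : ℕ}

/-- The weight of a monomial. -/
def wq (w : Fin k → ℕ) (a : Fin k →₀ ℕ) : ℕ := Finsupp.weight w a

theorem wq_eq (w : Fin k → ℕ) (a : Fin k →₀ ℕ) : wq w a = ∑ i, a i * w i := by
  unfold wq
  rw [Finsupp.weight_apply, Finsupp.sum_fintype _ _ (fun i => by simp)]
  rfl

theorem wq_add (w : Fin k → ℕ) (a b : Fin k →₀ ℕ) : wq w (a + b) = wq w a + wq w b := by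
  unfold wq
  exact map_add _ _ _

/-- The part of weight `ρ` of a power series. -/
def P (w : Fin k → ℕ) (ρ : ℕ) (x : MvPowerSeries (Fin k) ℂ) : MvPowerSeries (Fin k) ℂ :=
  fun a => if wq w a = ρ then MvPowerSeries.coeff a x else 0

theorem coeff_P (w : Fin k → ℕ) (ρ : ℕ) (x : MvPowerSeries (Fin k) ℂ) (a : Fin k →₀ ℕ) :
    MvPowerSeries.coeff a (P w ρ x) = if wq w a = ρ then MvPowerSeries.coeff a x else 0 := rfl

theorem P_sum (w : Fin k → ℕ) (ρ : ℕ) {ι : Type*} (s : Finset ι)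
    (x : ι → MvPowerSeries (Fin k) ℂ) : P w ρ (∑ i ∈ s, x i) = ∑ i ∈ s, P w ρ (x i) := by
  refine MvPowerSeries.ext fun a => ?_
  rw [coeff_P, map_sum, map_sum]
  simp only [coeff_P]
  by_cases h : wq w a = ρ
  · simp [h]
  · simp [h]

/-- `g` is homogeneous of degree `e` for the weights `w`. -/
def Hom (w : Fin k → ℕ) (e : ℕ) (g : MvPowerSeries (Fin k) ℂ) : Prop :=
  ∀ a, MvPowerSeries.coeff a g ≠ 0 → wq w a = e

theorem P_mul {w : Fin k → ℕ} {e : ℕ} {g : MvPowerSeries (Fin k) ℂ} (hg : Hom w e g) (ρ : ℕ)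
    (c : MvPowerSeries (Fin k) ℂ) :
    P w ρ (c * g) = if e ≤ ρ then P w (ρ - e) c * g else 0 := by
  classical
  refine MvPowerSeries.ext fun a => ?_
  by_cases he : e ≤ ρ
  · rw [if_pos he, coeff_P, MvPowerSeries.coeff_mul, MvPowerSeries.coeff_mul]
    by_cases ha : wq w a = ρ
    · rw [if_pos ha]
      refine Finset.sum_congr rfl fun p hp => ?_
      rw [Finset.HasAntidiagonal.mem_antidiagonal] at hp
      by_cases h0 : MvPowerSeries.coeff p.2 g = 0
      · rw [h0, mul_zero, mul_zero]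
      · have h1 := hg _ h0
        rw [← hp, wq_add] at ha
        rw [coeff_P, if_pos (by omega)]
    · rw [if_neg ha]
      symm
      refine Finset.sum_eq_zero fun p hp => ?_
      rw [Finset.HasAntidiagonal.mem_antidiagonal] at hp
      by_cases h0 : MvPowerSeries.coeff p.2 g = 0
      · rw [h0, mul_zero]
      · have h1 := hg _ h0
        rw [← hp, wq_add] at ha
        rw [coeff_P, if_neg (by omega), zero_mul]
  · rw [if_neg he, coeff_P, MvPowerSeries.coeff_mul, map_zero]
    by_cases ha : wq w a = ρ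
    · rw [if_pos ha]
      refine Finset.sum_eq_zero fun p hp => ?_
      rw [Finset.HasAntidiagonal.mem_antidiagonal] at hp
      by_cases h0 : MvPowerSeries.coeff p.2 g = 0
      · rw [h0, mul_zero]
      · have h1 := hg _ h0
        rw [← hp, wq_add] at ha
        omega
    · rw [if_neg ha]

/-- The partial derivatives of a weighted homogeneous polynomial. -/
theorem hom_pderiv {w : Fin k → ℕ} {D : ℕ} {G : MvPolynomial (Fin k) ℂ}
    (hG : G.IsWeightedHomogeneous w D) (j : Fin k) :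
    Hom w (D - w j) (MvPowerSeries.pderiv ℂ j (G : MvPowerSeries (Fin k) ℂ)) := by
  intro a ha
  rw [MvPowerSeries.pderiv_coe, MvPolynomial.coeff_coe, MvPolynomial.coeff_pderiv] at ha
  have h1 : coeff (a + Finsupp.single j 1) G ≠ 0 := left_ne_zero_of_mul ha
  have h2 : wq w (a + Finsupp.single j 1) = D := hG h1
  rw [wq_add] at h2
  have h3 : wq w (Finsupp.single j 1) = w j := by
    unfold wq
    rw [Finsupp.weight_single]
    simp
  omega

theorem P_mem {w : Fin k → ℕ} {D : ℕ} {G : MvPolynomial (Fin k) ℂ}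
    (hG : G.IsWeightedHomogeneous w D) {x : MvPowerSeries (Fin k) ℂ}
    (hx : x ∈ YM.JI (G : MvPowerSeries (Fin k) ℂ)) (ρ : ℕ) :
    P w ρ x ∈ YM.JI (G : MvPowerSeries (Fin k) ℂ) := by
  obtain ⟨c, rfl⟩ := Ideal.mem_span_range_iff_exists_fun.1 hx
  rw [P_sum]
  refine Ideal.sum_mem _ fun j _ => ?_
  rw [P_mul (hom_pderiv hG j)]
  split_ifs
  · exact Ideal.mul_mem_left _ _ (Ideal.subset_span ⟨j, rfl⟩)
  · exact Ideal.zero_mem _

theorem coeff_X_mul_pderiv (i : Fin k) (x : MvPowerSeries (Fin k) ℂ) (a : Fin k →₀ ℕ) :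
    MvPowerSeries.coeff a (MvPowerSeries.X i * MvPowerSeries.pderiv ℂ i x) =
      (a i : ℂ) * MvPowerSeries.coeff a x := by
  classical
  rw [MvPowerSeries.X_def, MvPowerSeries.coeff_monomial_mul]
  by_cases h : 1 ≤ a i
  · have h1 : Finsupp.single i 1 ≤ a := by rwa [Finsupp.single_le_iff]
    rw [if_pos h1, one_mul, MvPowerSeries.coeff_pderiv, tsub_add_cancel_of_le h1, mul_comm]
    congr 1
    rw [Finsupp.tsub_apply, Finsupp.single_eq_same]
    push_cast [h]
    ring
  · have h1 : ¬ Finsupp.single i 1 ≤ a := by rwa [Finsupp.single_le_iff]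
    have h0 : a i = 0 := by omega
    rw [if_neg h1, h0, Nat.cast_zero, zero_mul]

theorem coeff_eul (w : Fin k → ℕ) (D : ℕ) (x : MvPowerSeries (Fin k) ℂ) (a : Fin k →₀ ℕ) :
    MvPowerSeries.coeff a (eul w D x) = ((wq w a : ℂ) / D) * MvPowerSeries.coeff a x := by
  unfold eul
  rw [map_sum]
  have h1 : ∀ i, MvPowerSeries.coeff a (MvPowerSeries.C ((w i : ℂ) / D) *
      (MvPowerSeries.X i * MvPowerSeries.pderiv ℂ i x)) =
      ((a i : ℂ) * w i / D) * MvPowerSeries.coeff a x := by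
    intro i
    rw [MvPowerSeries.coeff_C_mul, coeff_X_mul_pderiv]
    ring
  rw [Finset.sum_congr rfl fun i _ => h1 i, ← Finset.sum_mul, ← Finset.sum_div, wq_eq]
  push_cast
  rfl

theorem eul_sub (w : Fin k → ℕ) (D : ℕ) (x y : MvPowerSeries (Fin k) ℂ) :
    eul w D (x - y) = eul w D x - eul w D y := by
  refine MvPowerSeries.ext fun a => ?_
  rw [coeff_eul, map_sub, map_sub, coeff_eul, coeff_eul]
  ring

theorem eul_mul (w : Fin k → ℕ) (D : ℕ) (x y : MvPowerSeries (Fin k) ℂ) :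
    eul w D (x * y) = eul w D x * y + x * eul w D y := by
  unfold eul
  rw [Finset.sum_mul, Finset.mul_sum, ← Finset.sum_add_distrib]
  refine Finset.sum_congr rfl fun i _ => ?_
  rw [Derivation.leibniz, smul_eq_mul, smul_eq_mul]
  ring

theorem eul_sum (w : Fin k → ℕ) (D : ℕ) {ι : Type*} (s : Finset ι)
    (x : ι → MvPowerSeries (Fin k) ℂ) : eul w D (∑ i ∈ s, x i) = ∑ i ∈ s, eul w D (x i) := by
  refine MvPowerSeries.ext fun a => ?_
  rw [coeff_eul, map_sum, map_sum, Finset.mul_sum]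
  exact Finset.sum_congr rfl fun i _ => (coeff_eul w D (x i) a).symm

theorem eul_hom {w : Fin k → ℕ} {D e : ℕ} {g : MvPowerSeries (Fin k) ℂ} (hg : Hom w e g) :
    eul w D g = MvPowerSeries.C ((e : ℂ) / D) * g := by
  refine MvPowerSeries.ext fun a => ?_
  rw [coeff_eul, MvPowerSeries.coeff_C_mul]
  by_cases h : MvPowerSeries.coeff a g = 0
  · rw [h, mul_zero, mul_zero]
  · rw [hg a h]

theorem eul_mem {w : Fin k → ℕ} {D : ℕ} {G : MvPolynomial (Fin k) ℂ}
    (hG : G.IsWeightedHomogeneous w D) {x : MvPowerSeries (Fin k) ℂ}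
    (hx : x ∈ YM.JI (G : MvPowerSeries (Fin k) ℂ)) :
    eul w D x ∈ YM.JI (G : MvPowerSeries (Fin k) ℂ) := by
  obtain ⟨c, rfl⟩ := Ideal.mem_span_range_iff_exists_fun.1 hx
  rw [eul_sum]
  refine Ideal.sum_mem _ fun j _ => ?_
  rw [eul_mul, eul_hom (hom_pderiv hG j)]
  have h1 : MvPowerSeries.pderiv ℂ j (G : MvPowerSeries (Fin k) ℂ) ∈
      YM.JI (G : MvPowerSeries (Fin k) ℂ) := Ideal.subset_span ⟨j, rfl⟩
  exact Ideal.add_mem _ (Ideal.mul_mem_left _ _ h1)
    (Ideal.mul_mem_left _ _ (Ideal.mul_mem_left _ _ h1))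

theorem coe_mem {G p : MvPolynomial (Fin k) ℂ} (hp : p ∈ JP G) :
    (p : MvPowerSeries (Fin k) ℂ) ∈ YM.JI (G : MvPowerSeries (Fin k) ℂ) := by
  obtain ⟨c, rfl⟩ := Ideal.mem_span_range_iff_exists_fun.1 hp
  have h1 : ((∑ i, c i * pderiv i G : MvPolynomial (Fin k) ℂ) : MvPowerSeries (Fin k) ℂ) =
      ∑ i, (c i : MvPowerSeries (Fin k) ℂ) *
        MvPowerSeries.pderiv ℂ i (G : MvPowerSeries (Fin k) ℂ) := by
    have h2 := map_sum (MvPolynomial.coeToMvPowerSeries.ringHom (R := ℂ) (σ := Fin k))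
      (fun i => c i * pderiv i G) Finset.univ
    simp only [map_mul, MvPolynomial.coeToMvPowerSeries.ringHom_apply,
      ← MvPowerSeries.pderiv_coe] at h2
    exact h2
  rw [h1]
  exact Ideal.sum_mem _ fun j _ => Ideal.mul_mem_left _ _ (Ideal.subset_span ⟨j, rfl⟩)

theorem wq_pos {w : Fin k → ℕ} (hw : ∀ i, 0 < w i) {b : Fin k →₀ ℕ} (hb : b ≠ 0) :
    0 < wq w b := by
  obtain ⟨i, hi⟩ := Finsupp.ne_iff.1 hb
  rw [wq_eq]
  refine Finset.sum_pos' (fun j _ => Nat.zero_le _) ⟨i, Finset.mem_univ _, ?_⟩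
  have h1 : b i ≠ 0 := hi
  exact Nat.mul_pos (Nat.pos_of_ne_zero h1) (hw i)

theorem coeff_mul_low {w : Fin k → ℕ} (hw : ∀ i, 0 < w i) {ρ : ℕ}
    (u : MvPowerSeries (Fin k) ℂ) {x : MvPowerSeries (Fin k) ℂ}
    (hx : ∀ a, wq w a < ρ → MvPowerSeries.coeff a x = 0) {a : Fin k →₀ ℕ} (ha : wq w a = ρ) :
    MvPowerSeries.coeff a (u * x) = MvPowerSeries.constantCoeff u * MvPowerSeries.coeff a x := by
  classical
  rw [MvPowerSeries.coeff_mul, Finset.sum_eq_single (0, a)]
  · rfl
  · intro p hp hne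
    rw [Finset.HasAntidiagonal.mem_antidiagonal] at hp
    have hb : p.1 ≠ 0 := by
      intro h0
      apply hne
      rw [h0, zero_add] at hp
      exact Prod.ext h0 hp
    have h1 := wq_pos hw hb
    rw [← hp, wq_add] at ha
    rw [hx p.2 (by omega), mul_zero]
  · intro h
    exact absurd (by rw [Finset.HasAntidiagonal.mem_antidiagonal]; simp) h

theorem mem_of_big {J : Ideal (MvPowerSeries (Fin k) ℂ)} {N : ℕ}
    (hJ : ∀ i, (MvPowerSeries.X i : MvPowerSeries (Fin k) ℂ) ^ N ∈ J)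
    {x : MvPowerSeries (Fin k) ℂ}
    (hx : ∀ a, MvPowerSeries.coeff a x ≠ 0 → ∃ i, N ≤ a i) : x ∈ J := by
  classical
  let y : Fin k → MvPowerSeries (Fin k) ℂ := fun i b =>
    if ∀ j < i, (b + Finsupp.single i N) j < N then
      MvPowerSeries.coeff (b + Finsupp.single i N) x else 0
  have hy : ∀ i b, MvPowerSeries.coeff b (y i) =
      if ∀ j < i, (b + Finsupp.single i N) j < N then
        MvPowerSeries.coeff (b + Finsupp.single i N) x else 0 := fun _ _ => rfl
  have hsum : x = ∑ i, MvPowerSeries.X i ^ N * y i := by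
    refine MvPowerSeries.ext fun a => ?_
    rw [map_sum]
    have h1 : ∀ i, MvPowerSeries.coeff a (MvPowerSeries.X i ^ N * y i) =
        if N ≤ a i ∧ ∀ j < i, a j < N then MvPowerSeries.coeff a x else 0 := by
      intro i
      rw [MvPowerSeries.X_pow_eq, MvPowerSeries.coeff_monomial_mul]
      by_cases h : N ≤ a i
      · have h2 : Finsupp.single i N ≤ a := by rwa [Finsupp.single_le_iff]
        rw [if_pos h2, one_mul, hy, tsub_add_cancel_of_le h2]
        by_cases h3 : ∀ j < i, a j < N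
        · rw [if_pos h3, if_pos ⟨h, h3⟩]
        · rw [if_neg h3, if_neg (fun h4 => h3 h4.2)]
      · have h2 : ¬ Finsupp.single i N ≤ a := by rwa [Finsupp.single_le_iff]
        rw [if_neg h2, if_neg (fun h4 => h h4.1)]
    rw [Finset.sum_congr rfl fun i _ => h1 i]
    by_cases h0 : MvPowerSeries.coeff a x = 0
    · rw [h0]
      simp
    · have hne : (Finset.univ.filter fun i => N ≤ a i).Nonempty := by
        obtain ⟨i, hi⟩ := hx a h0
        exact ⟨i, Finset.mem_filter.2 ⟨Finset.mem_univ _, hi⟩⟩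
      set i₀ := (Finset.univ.filter fun i => N ≤ a i).min' hne with hi₀
      have h2 : N ≤ a i₀ := (Finset.mem_filter.1 (Finset.min'_mem _ hne)).2
      have h3 : ∀ j < i₀, a j < N := by
        intro j hj
        by_contra h4
        rw [not_lt] at h4
        have h5 := Finset.min'_le (Finset.univ.filter fun i => N ≤ a i) j
          (Finset.mem_filter.2 ⟨Finset.mem_univ _, h4⟩)
        exact absurd (lt_of_lt_of_le hj h5) (lt_irrefl _)
      rw [Finset.sum_eq_single i₀]
      · rw [if_pos ⟨h2, h3⟩]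
      · intro i _ hi
        rw [if_neg]
        rintro ⟨h4, h5⟩
        rcases lt_or_gt_of_ne hi with h6 | h6
        · exact absurd h4 (not_le.2 (h3 i h6))
        · exact absurd h2 (not_le.2 (h5 i₀ h6))
      · intro h
        exact absurd (Finset.mem_univ _) h
  rw [hsum]
  exact Ideal.sum_mem _ fun i _ => Ideal.mul_mem_right _ _ (hJ i)

theorem P_mem_of_monomials {w : Fin k → ℕ} (hw : ∀ i, 0 < w i) {G : MvPolynomial (Fin k) ℂ}
    {ρ : ℕ} (hmon : ∀ a, wq w a = ρ → monomial a (1 : ℂ) ∈ JP G)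
    (x : MvPowerSeries (Fin k) ℂ) : P w ρ x ∈ YM.JI (G : MvPowerSeries (Fin k) ℂ) := by
  classical
  let S : Finset (Fin k →₀ ℕ) :=
    (Finset.Iic (Finsupp.equivFunOnFinite.symm fun _ => ρ)).filter fun a => wq w a = ρ
  have hS : ∀ a, a ∈ S ↔ wq w a = ρ := by
    intro a
    rw [Finset.mem_filter, and_iff_right_iff_imp]
    intro h
    rw [Finset.mem_Iic]
    intro i
    show a i ≤ ρ
    rw [← h, wq_eq]
    calc a i ≤ a i * w i := Nat.le_mul_of_pos_right _ (hw i)
      _ ≤ _ := Finset.single_le_sum (f := fun i => a i * w i) (fun _ _ => Nat.zero_le _)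
        (Finset.mem_univ i)
  have h1 : P w ρ x =
      ((∑ a ∈ S, monomial a (MvPowerSeries.coeff a x) : MvPolynomial (Fin k) ℂ) :
        MvPowerSeries (Fin k) ℂ) := by
    refine MvPowerSeries.ext fun b => ?_
    rw [coeff_P, MvPolynomial.coeff_coe, MvPolynomial.coeff_sum]
    simp only [MvPolynomial.coeff_monomial]
    rw [Finset.sum_ite_eq' S b]
    by_cases h2 : wq w b = ρ
    · rw [if_pos h2, if_pos ((hS b).2 h2)]
    · rw [if_neg h2, if_neg (fun h3 => h2 ((hS b).1 h3))]
  rw [h1]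
  refine coe_mem (Ideal.sum_mem _ fun a ha => ?_)
  have h2 : monomial a (MvPowerSeries.coeff a x) =
      C (MvPowerSeries.coeff a x) * monomial a (1 : ℂ) := by
    rw [MvPolynomial.C_mul_monomial, mul_one]
  rw [h2]
  exact Ideal.mul_mem_left _ _ (hmon a ((hS a).1 ha))

end FiltAux

open FiltAux in

/-- Let `J = JI G` (generated by the `∂_j G`, which are homogeneous of degree `D - w_j`; it contains
powers of the variables) and `L(α) = c α - d (v eul(α) + θ α)`. `L` maps `J` to `J`, since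
`eul(∂_j G) = ((D - w_j)/D) ∂_j G`. The homogeneous parts (for the weights `w`) of the elements of `J`
belong to `J`. If the parts of `α` of degree `< ρ` belong to `J`, remove them; the part of degree `ρ`
of `L(α)` is `(c - d (ρ + ∑ w_i)/D) α_ρ`. If all monomials of degree `ρ` belong to `J`, `α_ρ ∈ J`;
otherwise the factor is not zero by `hnum`, and `α_ρ ∈ J`. So all `α_ρ ∈ J`, and `J` contains all
power series of large order. -/
theorem mem_of_shift {k : ℕ} {w : Fin k → ℕ} {D : ℕ} {G : MvPolynomial (Fin k) ℂ}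
    (hw : ∀ i, 0 < w i) (hD : 0 < D) (hG : G.IsWeightedHomogeneous w D)
    (hiso : ∃ N : ℕ, ∀ i, (X i : MvPolynomial (Fin k) ℂ) ^ N ∈ JP G)
    {v θ : MvPowerSeries (Fin k) ℂ} (hv : MvPowerSeries.constantCoeff v = 1)
    (hθ : MvPowerSeries.constantCoeff θ = (∑ i, (w i : ℂ)) / D) {c d : ℂ}
    (hnum : ∀ a : Fin k →₀ ℕ, monomial a (1 : ℂ) ∉ JP G →
      c * D ≠ d * ∑ i, ((a i : ℂ) + 1) * w i) {α : MvPowerSeries (Fin k) ℂ}
    (h : MvPowerSeries.C c * α - MvPowerSeries.C d * (v * eul w D α + θ * α) ∈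
      YM.JI (G : MvPowerSeries (Fin k) ℂ)) : α ∈ YM.JI (G : MvPowerSeries (Fin k) ℂ) := by
  have hD' : (D : ℂ) ≠ 0 := by exact_mod_cast hD.ne'
  have key : ∀ ρ : ℕ, ∃ β, α - β ∈ YM.JI (G : MvPowerSeries (Fin k) ℂ) ∧
      ∀ a, wq w a < ρ → MvPowerSeries.coeff a β = 0 := by
    intro ρ
    induction ρ with
    | zero => exact ⟨α, by rw [sub_self]; exact Ideal.zero_mem _, fun a ha => absurd ha (by omega)⟩
    | succ ρ ih =>
      obtain ⟨β, hβ1, hβ2⟩ := ih
      have hL : MvPowerSeries.C c * β - MvPowerSeries.C d * (v * eul w D β + θ * β) ∈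
          YM.JI (G : MvPowerSeries (Fin k) ℂ) := by
        have h1 : MvPowerSeries.C c * (α - β) -
            MvPowerSeries.C d * (v * eul w D (α - β) + θ * (α - β)) ∈
            YM.JI (G : MvPowerSeries (Fin k) ℂ) :=
          Ideal.sub_mem _ (Ideal.mul_mem_left _ _ hβ1) (Ideal.mul_mem_left _ _
            (Ideal.add_mem _ (Ideal.mul_mem_left _ _ (eul_mem hG hβ1))
              (Ideal.mul_mem_left _ _ hβ1)))
        have h2 := Ideal.sub_mem _ h h1
        rw [eul_sub] at h2
        convert h2 using 1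
        ring
      have hPL := P_mem hG hL ρ
      have hf : P w ρ (MvPowerSeries.C c * β - MvPowerSeries.C d * (v * eul w D β + θ * β)) =
          MvPowerSeries.C (c - d * ((ρ : ℂ) / D + (∑ i, (w i : ℂ)) / D)) * P w ρ β := by
        refine MvPowerSeries.ext fun a => ?_
        rw [coeff_P, MvPowerSeries.coeff_C_mul, coeff_P]
        by_cases ha : wq w a = ρ
        · rw [if_pos ha, if_pos ha, map_sub, MvPowerSeries.coeff_C_mul, MvPowerSeries.coeff_C_mul,
            map_add, coeff_mul_low hw v (x := eul w D β) (ρ := ρ) (fun b hb => by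
              rw [coeff_eul, hβ2 b hb, mul_zero]) ha, coeff_mul_low hw θ hβ2 ha, hv, hθ,
            coeff_eul, ha]
          ring
        · rw [if_neg ha, if_neg ha, mul_zero]
      rw [hf] at hPL
      have hPβ : P w ρ β ∈ YM.JI (G : MvPowerSeries (Fin k) ℂ) := by
        by_cases hf0 : c - d * ((ρ : ℂ) / D + (∑ i, (w i : ℂ)) / D) = 0
        · refine P_mem_of_monomials hw (fun a ha => ?_) β
          by_contra hna
          refine hnum a hna ?_
          have h1 : ∑ i, ((a i : ℂ) + 1) * w i = ρ + ∑ i, (w i : ℂ) := by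
            rw [← ha, wq_eq]
            push_cast
            rw [← Finset.sum_add_distrib]
            exact Finset.sum_congr rfl fun i _ => by ring
          rw [h1]
          have h2 : c = d * ((ρ : ℂ) / D + (∑ i, (w i : ℂ)) / D) := sub_eq_zero.1 hf0
          rw [h2]
          field_simp
        · have h1 := Ideal.mul_mem_left _ (MvPowerSeries.C
            (c - d * ((ρ : ℂ) / D + (∑ i, (w i : ℂ)) / D))⁻¹) hPL
          rw [← mul_assoc, ← map_mul, inv_mul_cancel₀ hf0, map_one, one_mul] at h1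
          exact h1
      refine ⟨β - P w ρ β, ?_, fun a ha => ?_⟩
      · have h1 := Ideal.add_mem _ hβ1 hPβ
        convert h1 using 1
        ring
      · rw [map_sub, coeff_P]
        by_cases h1 : wq w a = ρ
        · rw [if_pos h1, sub_self]
        · rw [if_neg h1, sub_zero]
          exact hβ2 a (by omega)
  obtain ⟨N, hN⟩ := hiso
  obtain ⟨β, hβ1, hβ2⟩ := key (∑ i, N * w i + 1)
  have hβ : β ∈ YM.JI (G : MvPowerSeries (Fin k) ℂ) := by
    refine mem_of_big (N := N) (fun i => ?_) fun a ha => ?_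
    · have h1 := coe_mem (hN i)
      rwa [MvPolynomial.coe_pow, MvPolynomial.coe_X] at h1
    · by_contra hne
      push Not at hne
      refine ha (hβ2 a ?_)
      rw [wq_eq]
      refine Nat.lt_succ_of_le (Finset.sum_le_sum fun i _ => ?_)
      exact Nat.mul_le_mul_right _ (hne i).le
  have h1 := Ideal.add_mem _ hβ1 hβ
  rwa [sub_add_cancel] at h1

end YQ

end MPb07157
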