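import Pool.Agent.Lib.MP_b07157_agYQ.Defs
import Pool.Agent.Lib.MP_b07157_agE.EA
import Mathlib.RingTheory.MvPolynomial.EulerIdentity

/-!
# The Jacobian ideal of a quasi-homogeneous germ
-/

noncomputable section

namespace MPb07157

open MvPolynomial

namespace YQ

namespace JacAux

variable {k : ℕ}

/-- The ideal of the variables. -/
def mX (k : ℕ) : Ideal (MvPowerSeries (Fin k) ℂ) :=
  Ideal.span (Set.range fun i : Fin k => (MvPowerSeries.X i : MvPowerSeries (Fin k) ℂ))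

theorem mem_mX {e : MvPowerSeries (Fin k) ℂ} (he : MvPowerSeries.constantCoeff e = 0) :
    e ∈ mX k := by
  classical
  let p : Fin k → MvPowerSeries (Fin k) ℂ := fun i m =>
    if m i ≠ 0 ∧ ∀ j < i, m j = 0 then MvPowerSeries.coeff m e else 0
  have hp : ∀ i m, MvPowerSeries.coeff m (p i) =
      if m i ≠ 0 ∧ ∀ j < i, m j = 0 then MvPowerSeries.coeff m e else 0 := fun i m => rfl
  have h1 : e = ∑ i, p i := by
    ext m
    rw [map_sum]
    simp only [hp]
    by_cases hm : m = 0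
    · subst hm
      rw [MvPowerSeries.coeff_zero_eq_constantCoeff_apply, he]
      symm
      apply Finset.sum_eq_zero
      intro i _
      rw [if_neg]
      rintro ⟨h, -⟩
      exact h rfl
    · have hne : m.support.Nonempty := Finsupp.support_nonempty_iff.2 hm
      rw [Finset.sum_eq_single (m.support.min' hne)]
      · rw [if_pos]
        refine ⟨Finsupp.mem_support_iff.1 (Finset.min'_mem _ hne), fun j hj => ?_⟩
        by_contra h
        exact absurd (Finset.min'_le _ j (Finsupp.mem_support_iff.2 h)) (not_le.2 hj)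
      · intro i _ hi
        rw [if_neg]
        rintro ⟨h, h'⟩
        have h2 := Finset.min'_le _ i (Finsupp.mem_support_iff.2 h)
        have h3 := h' _ (lt_of_le_of_ne h2 (Ne.symm hi))
        exact (Finsupp.mem_support_iff.1 (Finset.min'_mem _ hne)) h3
      · intro h
        exact absurd (Finset.mem_univ _) h
  rw [h1]
  refine Ideal.sum_mem _ fun i _ => ?_
  have h2 : (MvPowerSeries.X i : MvPowerSeries (Fin k) ℂ) ∣ p i := by
    rw [MvPowerSeries.X_dvd_iff]
    intro m hm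
    rw [hp, if_neg]
    rintro ⟨h, -⟩
    exact h hm
  exact Ideal.mem_of_dvd _ h2 (Ideal.subset_span (Set.mem_range_self i))

theorem mX_le_jacobson : mX k ≤ Ideal.jacobson ⊥ := by
  refine le_trans ?_ (IsLocalRing.maximalIdeal_le_jacobson _)
  rw [mX, Ideal.span_le]
  rintro _ ⟨i, rfl⟩
  rw [SetLike.mem_coe, IsLocalRing.mem_maximalIdeal, mem_nonunits_iff,
    MvPowerSeries.isUnit_iff_constantCoeff]
  simp

theorem euler {w : Fin k → ℕ} {D : ℕ} {G : MvPolynomial (Fin k) ℂ} (hD : 0 < D)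
    (hG : G.IsWeightedHomogeneous w D) :
    (G : MvPowerSeries (Fin k) ℂ) ∈ mX k * YM.JI (G : MvPowerSeries (Fin k) ℂ) := by
  have h1 := hG.sum_weight_X_mul_pderiv
  have h2 : ((∑ i, w i • (X i * pderiv i G) : MvPolynomial (Fin k) ℂ) :
      MvPowerSeries (Fin k) ℂ) ∈ mX k * YM.JI (G : MvPowerSeries (Fin k) ℂ) := by
    have h3 : ∀ s : Finset (Fin k), ((∑ i ∈ s, w i • (X i * pderiv i G) :
        MvPolynomial (Fin k) ℂ) : MvPowerSeries (Fin k) ℂ) ∈
          mX k * YM.JI (G : MvPowerSeries (Fin k) ℂ) := by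
      classical
      intro s
      induction s using Finset.induction_on with
      | empty =>
        rw [Finset.sum_empty, coe_zero]
        exact Ideal.zero_mem _
      | insert a s ha ih =>
        rw [Finset.sum_insert ha, coe_add]
        refine Ideal.add_mem _ ?_ ih
        rw [nsmul_eq_mul, coe_mul, coe_mul, coe_X]
        refine Ideal.mul_mem_left _ _ (Ideal.mul_mem_mul (Ideal.subset_span ⟨a, rfl⟩)
          (Ideal.subset_span ⟨a, ?_⟩))
        exact MvPowerSeries.pderiv_coe _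
    exact h3 _
  rw [h1] at h2
  have h4 : ((D • G : MvPolynomial (Fin k) ℂ) : MvPowerSeries (Fin k) ℂ) =
      MvPowerSeries.C (D : ℂ) * (G : MvPowerSeries (Fin k) ℂ) := by
    rw [nsmul_eq_mul, coe_mul, ← map_natCast (C : ℂ →+* MvPolynomial (Fin k) ℂ), coe_C]
  rw [h4] at h2
  have h5 := Ideal.mul_mem_left _ (MvPowerSeries.C ((D : ℂ)⁻¹)) h2
  have hD' : (D : ℂ) ≠ 0 := Nat.cast_ne_zero.2 hD.ne'
  rwa [← mul_assoc, ← map_mul, inv_mul_cancel₀ hD', map_one, one_mul] at h5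

end JacAux

open JacAux

/-- `JI (u G) = JI G` for a unit `u` and a weighted homogeneous polynomial `G` of positive degree:
`G = ∑ (w_i/D) x_i ∂_i G ∈ m JI G`, `∂_i(u G) = u ∂_i G + (∂_i u) G`, and Nakayama's lemma. -/
theorem ji_unit_mul {k : ℕ} {w : Fin k → ℕ} {D : ℕ} {G : MvPolynomial (Fin k) ℂ}
    (hD : 0 < D) (hG : G.IsWeightedHomogeneous w D) (u : (MvPowerSeries (Fin k) ℂ)ˣ) :
    YM.JI ((u : MvPowerSeries (Fin k) ℂ) * (G : MvPowerSeries (Fin k) ℂ)) = YM.JI (G : MvPowerSeries (Fin k) ℂ) := by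
  have h0 : ∀ i, MvPowerSeries.pderiv ℂ i ((u : MvPowerSeries (Fin k) ℂ) *
      (G : MvPowerSeries (Fin k) ℂ)) = (u : MvPowerSeries (Fin k) ℂ) *
        MvPowerSeries.pderiv ℂ i (G : MvPowerSeries (Fin k) ℂ) +
        (G : MvPowerSeries (Fin k) ℂ) *
          MvPowerSeries.pderiv ℂ i (u : MvPowerSeries (Fin k) ℂ) := by
    intro i
    rw [Derivation.leibniz, smul_eq_mul, smul_eq_mul]
  have hG' := euler hD hG
  apply le_antisymm
  · rw [YM.JI, Ideal.span_le]
    rintro _ ⟨i, rfl⟩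
    rw [SetLike.mem_coe]
    show MvPowerSeries.pderiv ℂ i ((u : MvPowerSeries (Fin k) ℂ) *
      (G : MvPowerSeries (Fin k) ℂ)) ∈ _
    rw [h0]
    exact Ideal.add_mem _ (Ideal.mul_mem_left _ _ (Ideal.subset_span ⟨i, rfl⟩))
      (Ideal.mul_mem_right _ _ (Ideal.mul_le_right hG'))
  · refine Submodule.le_of_le_smul_of_le_jacobson_bot (I := mX k) ?_ mX_le_jacobson ?_
    · exact Submodule.fg_span (Set.finite_range _)
    · conv_lhs => rw [YM.JI]
      rw [Ideal.span_le]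
      rintro _ ⟨i, rfl⟩
      rw [SetLike.mem_coe]
      show MvPowerSeries.pderiv ℂ i (G : MvPowerSeries (Fin k) ℂ) ∈ _
      have h1 : MvPowerSeries.pderiv ℂ i (G : MvPowerSeries (Fin k) ℂ) =
          ((u⁻¹ : (MvPowerSeries (Fin k) ℂ)ˣ) : MvPowerSeries (Fin k) ℂ) *
            MvPowerSeries.pderiv ℂ i ((u : MvPowerSeries (Fin k) ℂ) *
              (G : MvPowerSeries (Fin k) ℂ)) -
          ((u⁻¹ : (MvPowerSeries (Fin k) ℂ)ˣ) : MvPowerSeries (Fin k) ℂ) *
            MvPowerSeries.pderiv ℂ i (u : MvPowerSeries (Fin k) ℂ) *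
              (G : MvPowerSeries (Fin k) ℂ) := by
        rw [h0, mul_add, ← mul_assoc, Units.inv_mul, one_mul]
        ring
      rw [h1]
      refine Submodule.sub_mem _ (Submodule.mem_sup_left (Ideal.mul_mem_left _ _
        (Ideal.subset_span ⟨i, rfl⟩))) (Submodule.mem_sup_right ?_)
      exact Ideal.mul_mem_left _ _ hG'

/-- The Jacobian ideal is compatible with automorphisms: `∂_j (E g) = ∑_i E(∂_i g) ∂_j E(X_i)`, and
the matrix of the `∂_j E(X_i)` is invertible. (Compare `agYM/LcB.lean`.) -/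
theorem ji_equiv {k : ℕ} (E : MvPowerSeries (Fin k) ℂ ≃ₐ[ℂ] MvPowerSeries (Fin k) ℂ)
    (g : MvPowerSeries (Fin k) ℂ) :
    YM.JI (E g) = (YM.JI g).map (E : MvPowerSeries (Fin k) ℂ →+* MvPowerSeries (Fin k) ℂ) := by
  have key : ∀ (E : MvPowerSeries (Fin k) ℂ ≃ₐ[ℂ] MvPowerSeries (Fin k) ℂ)
      (g : MvPowerSeries (Fin k) ℂ),
      YM.JI (E g) ≤ (YM.JI g).map (E : MvPowerSeries (Fin k) ℂ →+* MvPowerSeries (Fin k) ℂ) := by
    intro E g
    conv_lhs => rw [YM.JI]
    rw [Ideal.span_le]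
    rintro _ ⟨i, rfl⟩
    rw [SetLike.mem_coe]
    show MvPowerSeries.pderiv ℂ i (E g) ∈ _
    rw [pderiv_equiv]
    refine Ideal.sum_mem _ fun j _ => Ideal.mul_mem_left _ _ ?_
    exact Ideal.mem_map_of_mem (E : MvPowerSeries (Fin k) ℂ →+* MvPowerSeries (Fin k) ℂ)
      (Ideal.subset_span ⟨j, rfl⟩)
  refine le_antisymm (key E g) ?_
  have h1 := key E.symm (E g)
  rw [AlgEquiv.symm_apply_apply] at h1
  refine (Ideal.map_mono h1).trans ?_
  rw [Ideal.map_map]
  have h2 : ((E : MvPowerSeries (Fin k) ℂ →+* MvPowerSeries (Fin k) ℂ)).comp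
      (E.symm : MvPowerSeries (Fin k) ℂ →+* MvPowerSeries (Fin k) ℂ) = RingHom.id _ := by
    ext1 x
    exact E.apply_symm_apply x
  rw [h2, Ideal.map_id]

/-- The Jacobian ideal of a quasi-homogeneous germ contains powers of the variables. -/
theorem QHAt.jac_powers {k : ℕ} {g : MvPowerSeries (Fin k) ℂ} {w : Fin k → ℕ} {D : ℕ}
    {G : MvPolynomial (Fin k) ℂ} (hg : QHAt g w D G) :
    ∃ N : ℕ, ∀ i, (MvPowerSeries.X i : MvPowerSeries (Fin k) ℂ) ^ N ∈ YM.JI g := by
  obtain ⟨E, u, hE⟩ := hg.eq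
  obtain ⟨N, hN⟩ := hg.iso
  -- the unit in the coordinates of `G`
  set u' : (MvPowerSeries (Fin k) ℂ)ˣ := Units.map
    (E.symm : MvPowerSeries (Fin k) ℂ →* MvPowerSeries (Fin k) ℂ) u with hu'
  have h1 : g = E ((u' : MvPowerSeries (Fin k) ℂ) * (G : MvPowerSeries (Fin k) ℂ)) := by
    rw [map_mul, hE]
    congr 1
    exact (E.apply_symm_apply _).symm
  have h2 : YM.JI g = (YM.JI (G : MvPowerSeries (Fin k) ℂ)).map
      (E : MvPowerSeries (Fin k) ℂ →+* MvPowerSeries (Fin k) ℂ) := by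
    rw [h1, ji_equiv, ji_unit_mul hg.hD hg.hG]
  -- the powers of the variables
  have h3 : ∀ i, (MvPowerSeries.X i : MvPowerSeries (Fin k) ℂ) ^ N ∈
      YM.JI (G : MvPowerSeries (Fin k) ℂ) := by
    intro i
    have h4 := Ideal.mem_map_of_mem (MvPolynomial.coeToMvPowerSeries.ringHom (σ := Fin k) (R := ℂ))
      (hN i)
    rw [map_pow, MvPolynomial.coeToMvPowerSeries.ringHom_apply, coe_X] at h4
    refine (Ideal.map_le_iff_le_comap.2 ?_ : Ideal.map _ (JP G) ≤ _) h4
    rw [JP, Ideal.span_le]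
    rintro _ ⟨j, rfl⟩
    rw [SetLike.mem_coe, Ideal.mem_comap, MvPolynomial.coeToMvPowerSeries.ringHom_apply]
    exact Ideal.subset_span ⟨j, MvPowerSeries.pderiv_coe _⟩
  have h5 : mX k ≤ (YM.JI (G : MvPowerSeries (Fin k) ℂ)).radical := by
    rw [mX, Ideal.span_le]
    rintro _ ⟨i, rfl⟩
    exact ⟨N, h3 i⟩
  obtain ⟨M, hM⟩ := Ideal.exists_pow_le_of_le_radical_of_fg h5
    (Submodule.fg_span (Set.finite_range _))
  refine ⟨M, fun i => ?_⟩
  have h6 : E.symm (MvPowerSeries.X i) ∈ mX k := by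
    apply mem_mX
    rw [constantCoeff_equiv]
    simp
  have h7 := hM (Ideal.pow_mem_pow h6 M)
  have h8 := Ideal.mem_map_of_mem (E : MvPowerSeries (Fin k) ℂ →+* MvPowerSeries (Fin k) ℂ) h7
  rw [← h2, map_pow] at h8
  have h9 : (E : MvPowerSeries (Fin k) ℂ →+* MvPowerSeries (Fin k) ℂ)
      (E.symm (MvPowerSeries.X i)) = MvPowerSeries.X i := E.apply_symm_apply _
  rwa [h9] at h8

end YQ

end MPb07157
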